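import Pool.Agent.Helper48.OD.St

/-! Project OD, module BIN: powers of a sum modulo 4. -/

set_option autoImplicit false

namespace Pool.Agent.Helper9.OD

open Pool.Agent.Helper43.GD Pool.Agent.Helper48.OD

theorem hBIN : StBIN := by
  intro L _ x y f
  induction f with
  | zero => exact ⟨0, by ring⟩
  | succ f ih =>
    obtain ⟨w, hw⟩ := ih
    refine ⟨((x * y) ^ (2 ^ f)) ^ 2 + (x * y) ^ (2 ^ f) * (x ^ (2 ^ (f + 1)) + y ^ (2 ^ (f + 1))) +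
      2 * w * (x ^ (2 ^ (f + 1)) + y ^ (2 ^ (f + 1)) + 2 * (x * y) ^ (2 ^ f)) + 4 * w ^ 2, ?_⟩
    have h1 : ∀ z : L, z ^ (2 ^ (f + 1 + 1)) = (z ^ (2 ^ (f + 1))) ^ 2 := fun z => by
      rw [← pow_mul, ← pow_succ]
    rw [h1 (x + y), h1 x, h1 y, hw, mul_pow x y (2 ^ (f + 1))]
    ring

end Pool.Agent.Helper9.OD
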