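import Mathlib
import Pool.Agent.Helper95.OD.St

set_option autoImplicit false

namespace Pool.Agent.Helper9.OD

open Pool.Agent.Helper95.OD Finset
open scoped Classical

theorem prod_ge {ι : Type*} (F : Finset ι) (w : ι → ℝ) (h0 : ∀ i ∈ F, 0 ≤ w i)
    (h1 : ∀ i ∈ F, w i ≤ 1) : 1 - ∑ i ∈ F, w i ≤ ∏ i ∈ F, (1 - w i) ∧
      0 ≤ ∏ i ∈ F, (1 - w i) ∧ ∏ i ∈ F, (1 - w i) ≤ 1 := by
  induction F using Finset.induction_on with
  | empty => simp
  | insert a F ha ih =>
    have h0' : ∀ i ∈ F, 0 ≤ w i := fun i hi => h0 i (Finset.mem_insert_of_mem hi)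
    have h1' : ∀ i ∈ F, w i ≤ 1 := fun i hi => h1 i (Finset.mem_insert_of_mem hi)
    obtain ⟨e1, e2, e3⟩ := ih h0' h1'
    have a0 := h0 a (Finset.mem_insert_self a F)
    have a1 := h1 a (Finset.mem_insert_self a F)
    rw [Finset.sum_insert ha, Finset.prod_insert ha]
    refine ⟨?_, ?_, ?_⟩
    · nlinarith
    · exact mul_nonneg (by linarith) e2
    · nlinarith

theorem hPC : PC := by
  intro hCU hCT hCB m r s hHy T hT A hA c
  obtain ⟨hm, hs, hr, hbig⟩ := hHy
  have hrpos : (0 : ℝ) < r := by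
    have : 0 < r := by omega
    exact_mod_cast this
  have hC3 : 1 ≤ s.choose 2 := by
    have : 0 < s.choose 2 := Nat.choose_pos (by omega)
    omega
  -- weights of cliques
  have hKBw : ∀ N ∈ KB m r s, wt N = (2 / (r : ℝ)) ^ (s.choose 2) := by
    intro N hN
    unfold KB at hN
    rw [Finset.mem_image] at hN
    obtain ⟨X, hX, rfl⟩ := hN
    rw [Finset.mem_filter, Finset.mem_powersetCard] at hX
    have := (hCT m r s X hX.2 hX.1.2).2
    unfold wt
    rw [this]
  have hr2 : (2 : ℝ) / r ≤ 1 := by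
    rw [div_le_one hrpos]
    have : (16 : ℝ) ≤ r := by exact_mod_cast hr
    linarith
  have hr0 : (0 : ℝ) ≤ 2 / r := by positivity
  have hw0 : ∀ N : Finset (Cl m r), 0 ≤ wt N := fun N => pow_nonneg hr0 _
  have hw1 : ∀ N : Finset (Cl m r), wt N ≤ 1 := fun N => pow_le_one₀ hr0 hr2
  set F := (Fam m r s A).filter (fun N => ∃ b ∈ N, Cc c b) with hF
  obtain ⟨g1, g2, g3⟩ := prod_ge F wt (fun N _ => hw0 N) (fun N _ => hw1 N)
  refine le_trans ?_ g1
  set F1 := (KB m r s).filter (fun N => ∃ b ∈ N, Cc c b) with hF1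
  set F2 := (A.filter (fun b => Cc c b)).image (fun b => ({b} : Finset (Cl m r))) with hF2
  have hsub : F ⊆ F1 ∪ F2 := by
    intro N hN
    rw [hF, Finset.mem_filter] at hN
    obtain ⟨hN1, b, hb, hcb⟩ := hN
    unfold Fam at hN1
    rw [Finset.mem_union] at hN1
    rw [Finset.mem_union]
    rcases hN1 with h | h
    · left
      rw [hF1, Finset.mem_filter]
      exact ⟨h, b, hb, hcb⟩
    · right
      rw [Finset.mem_image] at h
      obtain ⟨d, hd, rfl⟩ := h
      rw [Finset.mem_singleton] at hb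
      subst hb
      rw [hF2, Finset.mem_image]
      exact ⟨b, Finset.mem_filter.mpr ⟨hd, hcb⟩, rfl⟩
  have hs1 : ∑ N ∈ F, wt N ≤ ∑ N ∈ F1, wt N + ∑ N ∈ F2, wt N := by
    refine le_trans (Finset.sum_le_sum_of_subset_of_nonneg hsub (fun N _ _ => hw0 N)) ?_
    have := Finset.sum_union_inter (s₁ := F1) (s₂ := F2) (f := fun N => wt N)
    have h0 : 0 ≤ ∑ N ∈ F1 ∩ F2, wt N := Finset.sum_nonneg (fun N _ => hw0 N)
    linarith
  -- first part
  have hb1 : ∑ N ∈ F1, wt N ≤ 1 / 32 := by
    have e1 : ∑ N ∈ F1, wt N = F1.card * (2 / (r : ℝ)) ^ (s.choose 2) := by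
      rw [Finset.sum_congr rfl (fun N hN => hKBw N (Finset.mem_filter.mp hN).1)]
      rw [Finset.sum_const, nsmul_eq_mul]
    have e2 : (F1.card : ℝ) ≤ 2 * (r * ((m : ℝ) * r) ^ (s - 2)) := by
      have := hCB hCU m r s c
      have h2 : (F1.card : ℝ) ≤ ((2 * (r * (m * r) ^ (s - 2)) : ℕ) : ℝ) := by
        exact_mod_cast this
      push_cast at h2
      exact h2
    have e3 : 64 * (2 : ℝ) ^ (s.choose 2) * ((m : ℝ) * r) ^ (s - 2) ≤ (r : ℝ) ^ (s.choose 2 - 1) := by
      exact_mod_cast hbig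
    obtain ⟨C, hC⟩ : ∃ C, s.choose 2 = C + 1 := ⟨s.choose 2 - 1, by omega⟩
    rw [e1, hC]
    rw [hC, Nat.add_sub_cancel] at e3
    rw [div_pow]
    have hrC : (0 : ℝ) < (r : ℝ) ^ (C + 1) := by positivity
    have e4 : (F1.card : ℝ) * ((2 : ℝ) ^ (C + 1) / (r : ℝ) ^ (C + 1)) ≤
        (2 * (r * ((m : ℝ) * r) ^ (s - 2))) * ((2 : ℝ) ^ (C + 1) / (r : ℝ) ^ (C + 1)) := by
      apply mul_le_mul_of_nonneg_right e2
      positivity
    refine le_trans e4 ?_
    rw [← mul_div_assoc, div_le_div_iff₀ hrC (by norm_num)]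
    have e5 : (r : ℝ) ^ (C + 1) = (r : ℝ) ^ C * r := pow_succ _ _
    rw [e5]
    have e6 : (64 * (2 : ℝ) ^ (C + 1) * ((m : ℝ) * r) ^ (s - 2)) * r ≤ (r : ℝ) ^ C * r :=
      mul_le_mul_of_nonneg_right e3 hrpos.le
    nlinarith
  -- second part
  have hb2 : ∑ N ∈ F2, wt N ≤ 1 / 4 := by
    have e1 : ∑ N ∈ F2, wt N ≤ F2.card * (2 / (r : ℝ)) := by
      have : ∑ N ∈ F2, wt N = ∑ N ∈ F2, (2 / (r : ℝ)) := by
        apply Finset.sum_congr rfl
        intro N hN
        rw [hF2, Finset.mem_image] at hN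
        obtain ⟨b, _, rfl⟩ := hN
        unfold wt
        rw [Finset.card_singleton, pow_one]
      rw [this, Finset.sum_const, nsmul_eq_mul]
    have e2 : F2.card ≤ (A.filter (fun b => Cc c b)).card := Finset.card_image_le
    have e3 : (A.filter (fun b => Cc c b)).card ≤
        (T.filter (fun v => v.1 = c.1.1.2)).card + (T.filter (fun v => v.1 = c.1.1.1)).card := by
      have hsub2 : A.filter (fun b => Cc c b) ⊆
          (A.filter (fun b => c.1 = b.1 ∧ c.2.1 = b.2.1)) ∪
          (A.filter (fun b => c.1 = b.1 ∧ c.2.2 = b.2.2)) := by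
        intro b hb
        rw [Finset.mem_filter] at hb
        obtain ⟨hbA, h1, _, h3⟩ := hb
        rw [Finset.mem_union, Finset.mem_filter, Finset.mem_filter]
        rcases h3 with h3 | h3
        · exact Or.inl ⟨hbA, h1, h3⟩
        · exact Or.inr ⟨hbA, h1, h3⟩
      refine le_trans (Finset.card_le_card hsub2) (le_trans (Finset.card_union_le _ _) ?_)
      apply Nat.add_le_add
      · apply Finset.card_le_card_of_injOn (fun b => hi b)
        · intro b hb
          have hb' := Finset.mem_filter.mp (Finset.mem_coe.mp hb)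
          have hbc := hA hb'.1
          unfold cells at hbc
          have hbc' := (Finset.mem_filter.mp hbc).2
          apply Finset.mem_coe.mpr
          rw [Finset.mem_filter]
          refine ⟨hbc'.2, ?_⟩
          show (hi b).1 = _
          unfold hi
          rw [hb'.2.1]
        · intro b hb d hd hbd
          have hb' := Finset.mem_filter.mp (Finset.mem_coe.mp hb)
          have hd' := Finset.mem_filter.mp (Finset.mem_coe.mp hd)
          have h2 : b.2.2 = d.2.2 := congrArg (fun v : Vx m r => v.2) (show hi b = hi d from hbd)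
          have h3 : b.1 = d.1 := by rw [← hb'.2.1, ← hd'.2.1]
          have h4 : b.2.1 = d.2.1 := by rw [← hb'.2.2, ← hd'.2.2]
          exact Prod.ext h3 (Prod.ext h4 h2)
      · apply Finset.card_le_card_of_injOn (fun b => lo b)
        · intro b hb
          have hb' := Finset.mem_filter.mp (Finset.mem_coe.mp hb)
          have hbc := hA hb'.1
          unfold cells at hbc
          have hbc' := (Finset.mem_filter.mp hbc).2
          apply Finset.mem_coe.mpr
          rw [Finset.mem_filter]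
          refine ⟨hbc'.1, ?_⟩
          show (lo b).1 = _
          unfold lo
          rw [hb'.2.1]
        · intro b hb d hd hbd
          have hb' := Finset.mem_filter.mp (Finset.mem_coe.mp hb)
          have hd' := Finset.mem_filter.mp (Finset.mem_coe.mp hd)
          have h2 : b.2.1 = d.2.1 := congrArg (fun v : Vx m r => v.2) (show lo b = lo d from hbd)
          have h3 : b.1 = d.1 := by rw [← hb'.2.1, ← hd'.2.1]
          have h4 : b.2.2 = d.2.2 := by rw [← hb'.2.2, ← hd'.2.2]
          exact Prod.ext h3 (Prod.ext h2 h4)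
    have e4 := hT c.1.1.2
    have e5 := hT c.1.1.1
    have e6 : 8 * F2.card ≤ r := by omega
    have e7 : (8 : ℝ) * F2.card ≤ r := by exact_mod_cast e6
    refine le_trans e1 ?_
    rw [← mul_div_assoc, div_le_div_iff₀ hrpos (by norm_num)]
    linarith
  linarith

end Pool.Agent.Helper9.OD
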